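import Mathlib
import Pool.Agent.H57.CP.Targets

/-!
# Adjacent flags exist and are unique (module FLA of MP_397744_co)
-/

namespace Pool.Agent.H92.CP.FLA

open Pool.Agent.H57.CP

/-- a set with two elements which contains `a` contains exactly one other element -/
theorem other {α : Type*} {s : Set α} (hs : s.ncard = 2) {a : α} (ha : a ∈ s) :
    ∃! b, b ∈ s ∧ a ≠ b := by
  obtain ⟨x, y, hxy, rfl⟩ := Set.ncard_eq_two.1 hs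
  rcases ha with rfl | ha
  · refine ⟨y, ⟨Or.inr rfl, hxy⟩, ?_⟩
    rintro b ⟨hb | hb, hb'⟩
    · exact absurd hb.symm hb'
    · exact hb
  · have ha' : a = y := ha
    subst ha'
    refine ⟨x, ⟨Or.inl rfl, hxy.symm⟩, ?_⟩
    rintro b ⟨hb | hb, hb'⟩
    · exact hb
    · exact absurd (show a = b from hb.symm) hb'

theorem fla : T_FLA := by
  rintro K hK ⟨x, e, f⟩ hΦ
  obtain ⟨hxe, hef, hf⟩ := hΦ
  simp only at hxe hef hf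
  have heE : e ∈ K.E := (hK.fs f hf).1 hef
  refine ⟨?_, ?_, ?_⟩
  · have hc : e.ncard = 2 := by
      obtain ⟨p, _, q, _, hpq, he⟩ := hK.ed e heE
      exact Set.ncard_eq_two.2 ⟨p, q, hpq, he⟩
    obtain ⟨y, ⟨hy, hxy⟩, hu⟩ := other hc hxe
    refine ⟨(y, e, f), ⟨⟨hxe, hef, hf⟩, ⟨hy, hef, hf⟩, hxy, rfl, rfl⟩, ?_⟩
    rintro ⟨y', e', f'⟩ ⟨_, h2, h3, h4, h5⟩
    simp only at h3 h4 h5
    subst h4; subst h5
    rw [hu y' ⟨h2.1, h3⟩]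
  · obtain ⟨a, ⟨ha, hea⟩, hu⟩ := other (hK.vf f hf e hef x hxe) (a := e) ⟨hef, hxe⟩
    refine ⟨(x, a, f), ⟨⟨hxe, hef, hf⟩, ⟨ha.2, ha.1, hf⟩, rfl, hea, rfl⟩, ?_⟩
    rintro ⟨y', e', f'⟩ ⟨_, h2, h3, h4, h5⟩
    simp only at h3 h4 h5
    subst h3; subst h5
    rw [hu e' ⟨⟨h2.2.1, h2.1⟩, h4⟩]
  · obtain ⟨a, ⟨ha, hea⟩, hu⟩ := other (hK.ef e heE) (a := f) ⟨hf, hef⟩
    refine ⟨(x, e, a), ⟨⟨hxe, hef, hf⟩, ⟨hxe, ha.2, ha.1⟩, rfl, rfl, hea⟩, ?_⟩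
    rintro ⟨y', e', f'⟩ ⟨_, h2, h3, h4, h5⟩
    simp only at h3 h4 h5
    subst h3; subst h4
    rw [hu f' ⟨⟨h2.2.2, h2.2.1⟩, h5⟩]

end Pool.Agent.H92.CP.FLA
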