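import Mathlib
import Pool.Agent.H57.CP.Targets

/-!
# Symmetries preserve flags and adjacency (module FLB of MP_397744_co)
-/

namespace Pool.Agent.H92.CP.FLB

open Pool.Agent.H57.CP

theorem fl_act {K : Geo} {g : Equiv.Perm H3} (hg : Sy K g) {Φ : Fg} (h : Fl K Φ) : Fl K (act g Φ) :=
  ⟨Set.mem_image_of_mem _ h.1, Set.mem_image_of_mem _ h.2.1, (hg.f _).2 h.2.2⟩

theorem img_inj (g : Equiv.Perm H3) : Function.Injective (Set.image g) :=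
  Set.image_injective.2 g.injective

theorem img2_inj (g : Equiv.Perm H3) : Function.Injective (Set.image (Set.image g)) :=
  Set.image_injective.2 (img_inj g)

theorem flb_aux (g : Equiv.Perm H3) (Φ Ψ : Fg) : (Φ.1 = Ψ.1 → (act g Φ).1 = (act g Ψ).1) ∧
    (Φ.2.1 = Ψ.2.1 → (act g Φ).2.1 = (act g Ψ).2.1) ∧ (Φ.2.2 = Ψ.2.2 → (act g Φ).2.2 = (act g Ψ).2.2) :=
  ⟨fun h => congrArg g h, fun h => congrArg (Set.image g) h, fun h => congrArg (Set.image (Set.image g)) h⟩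

theorem flb : T_FLB := by
  intro K g hg Φ Ψ
  refine ⟨fl_act hg, ?_, ?_, ?_⟩
  · rintro ⟨h1, h2, h3, h4, h5⟩
    exact ⟨fl_act hg h1, fl_act hg h2, fun e => h3 (g.injective e), (flb_aux g Φ Ψ).2.1 h4,
      (flb_aux g Φ Ψ).2.2 h5⟩
  · rintro ⟨h1, h2, h3, h4, h5⟩
    exact ⟨fl_act hg h1, fl_act hg h2, (flb_aux g Φ Ψ).1 h3, fun e => h4 (img_inj g e),
      (flb_aux g Φ Ψ).2.2 h5⟩
  · rintro ⟨h1, h2, h3, h4, h5⟩
    exact ⟨fl_act hg h1, fl_act hg h2, (flb_aux g Φ Ψ).1 h3, (flb_aux g Φ Ψ).2.1 h4,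
      fun e => h5 (img2_inj g e)⟩

end Pool.Agent.H92.CP.FLB
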