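import Mathlib
import Pool.Agent.H57.CP.Targets

/-!
# Flags are connected by adjacency (module FLC of MP_397744_co)
-/

namespace Pool.Agent.H92.CP.FLC

open Pool.Agent.H57.CP

/-- connected by adjacencies -/
def Cn (K : Geo) : Fg → Fg → Prop := Relation.ReflTransGen (fun a b => A0 K a b ∨ A1 K a b ∨ A2 K a b)

theorem change_face {K : Geo} {x : H3} {e : Set H3} {f f' : Set (Set H3)} (h : Fl K (x, e, f))
    (h' : Fl K (x, e, f')) : Cn K (x, e, f) (x, e, f') := by
  by_cases hf : f = f'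
  · subst hf; exact Relation.ReflTransGen.refl
  · exact Relation.ReflTransGen.single (Or.inr (Or.inr ⟨h, h', rfl, rfl, hf⟩))

theorem change_edge {K : Geo} {x : H3} {e e' : Set H3} {f : Set (Set H3)} (h : Fl K (x, e, f))
    (h' : Fl K (x, e', f)) : Cn K (x, e, f) (x, e', f) := by
  by_cases he : e = e'
  · subst he; exact Relation.ReflTransGen.refl
  · exact Relation.ReflTransGen.single (Or.inr (Or.inl ⟨h, h', rfl, he, rfl⟩))

theorem vert_mem {K : Geo} (hK : IsGeo K) {Φ : Fg} (h : Fl K Φ) : Φ.1 ∈ K.V ∧ Φ.2.1 ∈ K.E := by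
  have he : Φ.2.1 ∈ K.E := (hK.fs _ h.2.2).1 h.2.1
  refine ⟨?_, he⟩
  obtain ⟨p, hp, q, hq, _, e⟩ := hK.ed _ he
  have := h.1
  rw [e] at this
  rcases this with h1 | h1
  · rw [h1]; exact hp
  · have h2 : Φ.1 = q := h1
    rw [h2]; exact hq

theorem same_vertex {K : Geo} (hK : IsGeo K) {x : H3} {e e' : Set H3} {f f' : Set (Set H3)}
    (h : Fl K (x, e, f)) (h' : Fl K (x, e', f')) : Cn K (x, e, f) (x, e', f') := by
  have hx := (vert_mem hK h).1
  have he := (vert_mem hK h).2
  have he' := (vert_mem hK h').2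
  have hp := hK.cv x hx e he h.1 e' he' h'.1
  have key : ∀ a, Relation.ReflTransGen (fun a b => x ∈ b ∧ ∃ f ∈ K.F, a ∈ f ∧ b ∈ f) e a →
      ∀ b, Fl K (x, a, b) → Cn K (x, e, f) (x, a, b) := by
    intro a ha
    induction ha with
    | refl => intro b hb; exact change_face h hb
    | tail hab hbc ih =>
      rename_i a1 a2
      intro b hb
      obtain ⟨hx2, f2, hf2, h1, h2⟩ := hbc
      have hx1 : x ∈ a1 := by
        rcases Relation.ReflTransGen.cases_tail hab with h3 | ⟨c, _, h3⟩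
        · rw [h3]; exact h.1
        · exact h3.1
      have F1 : Fl K (x, a1, f2) := ⟨hx1, h1, hf2⟩
      have F2 : Fl K (x, a2, f2) := ⟨hx2, h2, hf2⟩
      exact ((ih f2 F1).trans (change_edge F1 F2)).trans (change_face F2 hb)
  exact key e' hp f' h'

theorem exists_face {K : Geo} (hK : IsGeo K) {e : Set H3} (he : e ∈ K.E) : ∃ f ∈ K.F, e ∈ f := by
  have h := hK.ef e he
  have : {f | f ∈ K.F ∧ e ∈ f}.Nonempty := by
    by_contra hne
    rw [Set.not_nonempty_iff_eq_empty.1 hne, Set.ncard_empty] at h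
    exact absurd h (by norm_num)
  obtain ⟨f, h1, h2⟩ := this
  exact ⟨f, h1, h2⟩

theorem flc : T_FLC := by
  rintro K hK ⟨x, e, f⟩ ⟨y, e', f'⟩ h h'
  have hx := (vert_mem hK h).1
  have hy := (vert_mem hK h').1
  have key : ∀ z, Relation.ReflTransGen (fun a b => ({a, b} : Set H3) ∈ K.E) x z →
      ∀ a b, Fl K (z, a, b) → Cn K (x, e, f) (z, a, b) := by
    intro z hz
    induction hz with
    | refl => intro a b hab; exact same_vertex hK h hab
    | tail h1 h2 ih =>
      rename_i u v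
      intro a b hab
      obtain ⟨g, hg, hg2⟩ := exists_face hK h2
      have F1 : Fl K (u, {u, v}, g) := ⟨Or.inl rfl, hg2, hg⟩
      have F2 : Fl K (v, {u, v}, g) := ⟨Or.inr rfl, hg2, hg⟩
      have F12 : Cn K (u, {u, v}, g) (v, {u, v}, g) := by
        by_cases huv : u = v
        · subst huv; exact Relation.ReflTransGen.refl
        · exact Relation.ReflTransGen.single (Or.inl ⟨F1, F2, huv, rfl, rfl⟩)
      exact ((ih _ _ F1).trans F12).trans (same_vertex hK F2 hab)
  exact key y (hK.cc x hx y hy) e' f' h'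

end Pool.Agent.H92.CP.FLC
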