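import Mathlib
import Pool.Agent.H57.CP.Targets

/-!
# Rigidity of flags (module FLD of MP_397744_co)
-/

namespace Pool.Agent.H92.CP.FLD

open Pool.Agent.H57.CP

theorem exists_face {K : Geo} (hK : IsGeo K) {e : Set H3} (he : e ∈ K.E) : ∃ f ∈ K.F, e ∈ f := by
  have h := hK.ef e he
  have : {f | f ∈ K.F ∧ e ∈ f}.Nonempty := by
    by_contra hne
    rw [Set.not_nonempty_iff_eq_empty.1 hne, Set.ncard_empty] at h
    exact absurd h (by norm_num)
  obtain ⟨f, h1, h2⟩ := this
  exact ⟨f, h1, h2⟩

theorem fld (h1 : T_FLA) (h2 : T_FLB) (h3 : T_FLC) : T_FLD := by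
  intro K hK g h hg hh Φ hΦ e x hx
  have key : ∀ Ψ, Relation.ReflTransGen (fun a b => A0 K a b ∨ A1 K a b ∨ A2 K a b) Φ Ψ →
      act g Ψ = act h Ψ := by
    intro Ψ hΨ
    induction hΨ with
    | refl => exact e
    | @tail a b _ hab ih =>
      rcases hab with hab | hab | hab
      · have F := (h2 K g hg a b).1 hab.1
        have A := (h2 K g hg a b).2.1 hab
        have B := (h2 K h hh a b).2.1 hab
        rw [← ih] at B
        exact ((h1 K hK _ F).1).unique A B
      · have F := (h2 K g hg a b).1 hab.1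
        have A := (h2 K g hg a b).2.2.1 hab
        have B := (h2 K h hh a b).2.2.1 hab
        rw [← ih] at B
        exact ((h1 K hK _ F).2.1).unique A B
      · have F := (h2 K g hg a b).1 hab.1
        have A := (h2 K g hg a b).2.2.2 hab
        have B := (h2 K h hh a b).2.2.2 hab
        rw [← ih] at B
        exact ((h1 K hK _ F).2.2).unique A B
  obtain ⟨a, ha, hxa⟩ := hK.ve x hx
  obtain ⟨f, hf, haf⟩ := exists_face hK ha
  have := key (x, a, f) (h3 K hK Φ (x, a, f) hΦ ⟨hxa, haf, hf⟩)
  exact congrArg Prod.fst this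

end Pool.Agent.H92.CP.FLD
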